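import Pool.Agent.Helper50_DP.StmtsC

/-!
# Squad DP, module CNT: there are more forms than conditions
-/

namespace Pool.Agent.DP.H94

open scoped BigOperators

/-- coefficient of the number of lines -/
def gG (p : ℕ) : ℕ := ∑ s ∈ Finset.range p, (s + 1) * (p - (s + 1))

/-- coefficient of the twist -/
def gH (p : ℕ) : ℕ := ∑ s ∈ Finset.range p, (s + 1)

/-- the correction -/
def gK (p : ℕ) : ℕ := ∑ s ∈ Finset.range p, ∑ u ∈ Finset.range (s + 1), u

theorem newf_eq (i p c : ℕ) (h : p ≤ c + 1) :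
    newf (i + 1) p c + gK p = gG p * (i + 1) + gH p * (c + 1) := by
  unfold newf gK gG gH
  rw [← Finset.sum_add_distrib, Finset.sum_mul, Finset.sum_mul, ← Finset.sum_add_distrib]
  apply Finset.sum_congr rfl
  intro s hs
  rw [Finset.mem_range] at hs
  rw [← Finset.sum_add_distrib]
  have h1 : ∀ u ∈ Finset.range (s + 1), (p - (s + 1)) * (i + 1) + (c - u) + 1 + u =
      (p - (s + 1)) * (i + 1) + (c + 1) := by
    intro u hu
    rw [Finset.mem_range] at hu
    omega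
  rw [Finset.sum_congr rfl h1, Finset.sum_const, Finset.card_range, smul_eq_mul]
  ring

theorem sum_newf (n p c : ℕ) (h : p ≤ c + 1) (hGK : gG p = gK p) :
    2 * (∑ i ∈ Finset.range n, newf (i + 1) p c) + n * gG p =
      n ^ 2 * gG p + 2 * (n * (gH p * (c + 1))) := by
  have h1 : ∑ i ∈ Finset.range n, (newf (i + 1) p c + gK p) =
      ∑ i ∈ Finset.range n, (gG p * (i + 1) + gH p * (c + 1)) :=
    Finset.sum_congr rfl fun i _ => newf_eq i p c h
  rw [Finset.sum_add_distrib, Finset.sum_add_distrib, Finset.sum_const, Finset.sum_const,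
    Finset.card_range, smul_eq_mul, smul_eq_mul, ← Finset.mul_sum, Finset.sum_add_distrib,
    Finset.sum_const, Finset.card_range, smul_eq_mul, mul_one, ← hGK] at h1
  have h2 : 2 * ∑ i ∈ Finset.range n, i + n = n ^ 2 := by
    have := Finset.sum_range_id_mul_two n
    rcases n with _ | n
    · simp
    · rw [Nat.add_sub_cancel] at this
      nlinarith
  set Q := ∑ i ∈ Finset.range n, newf (i + 1) p c
  set I := ∑ i ∈ Finset.range n, i
  have h3 : gG p * (2 * I + n) = gG p * n ^ 2 := by rw [h2]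
  nlinarith

theorem DD_ge (n p c e : ℕ) (h : p ≤ c + 1) (hGK : gG p = gK p) (he : e * n ≤ 4 * (c + 1)) :
    ((p + 1) * e ^ 2 + 16 * gG p + 8 * (gH p * e)) * n ^ 2 ≤ 32 * DD n p c + 16 * gG p * n := by
  have h1 := sum_newf n p c h hGK
  have h2 : 2 * ((c + 1) * (c + 2) / 2) = (c + 1) * (c + 2) := by
    apply Nat.mul_div_cancel'
    have := Nat.even_mul_succ_self (c + 1)
    exact this.two_dvd
  unfold DD
  set Q := ∑ i ∈ Finset.range n, newf (i + 1) p c
  set T := (c + 1) * (c + 2) / 2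
  have h3 : (e * n) ^ 2 ≤ 16 * (2 * T) := by
    rw [h2]
    calc (e * n) ^ 2 ≤ (4 * (c + 1)) ^ 2 := Nat.pow_le_pow_left he 2
      _ = 16 * ((c + 1) * (c + 1)) := by ring
      _ ≤ 16 * ((c + 1) * (c + 2)) := by
        apply Nat.mul_le_mul_left
        apply Nat.mul_le_mul_left
        omega
  have h4 : (p + 1) * (e * n) ^ 2 ≤ (p + 1) * (16 * (2 * T)) := Nat.mul_le_mul_left _ h3
  have h5 : 8 * (n * gH p) * (e * n) ≤ 8 * (n * gH p) * (4 * (c + 1)) := Nat.mul_le_mul_left _ he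
  nlinarith

theorem cnt : CntStmt := by
  refine ⟨100, fun n hn => ?_⟩
  have hc : cnd = 296905 := by decide +kernel
  have hGK : ∀ t : Fin 20, gG (57 - 3 * (t : ℕ)) = gK (57 - 3 * (t : ℕ)) := by decide +kernel
  have hA : ∑ t : Fin 20, ((57 - 3 * (t : ℕ) + 1) * (4 * (t : ℕ) + 3) ^ 2 +
      16 * gG (57 - 3 * (t : ℕ)) + 8 * (gH (57 - 3 * (t : ℕ)) * (4 * (t : ℕ) + 3))) = 5136830 := by
    decide +kernel
  have hB : ∑ t : Fin 20, 16 * gG (57 - 3 * (t : ℕ)) = 2597680 := by decide +kernel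
  have hterm : ∀ t : Fin 20, ((57 - 3 * (t : ℕ) + 1) * (4 * (t : ℕ) + 3) ^ 2 +
      16 * gG (57 - 3 * (t : ℕ)) + 8 * (gH (57 - 3 * (t : ℕ)) * (4 * (t : ℕ) + 3))) * n ^ 2 ≤
      32 * DD n (57 - 3 * (t : ℕ)) (tw (n + 3) t) + 16 * gG (57 - 3 * (t : ℕ)) * n := by
    intro t
    have ht := t.2
    have h1 : tw (n + 3) t = (t : ℕ) * n + n - (n + 3) / 4 := by
      unfold tw
      rw [Nat.add_sub_cancel, Nat.add_mul, Nat.one_mul]
    apply DD_ge n _ _ _ _ (hGK t)
    · have h2 : (4 * (t : ℕ) + 3) * n = 4 * ((t : ℕ) * n) + 3 * n := by ring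
      rw [h1, h2]
      omega
    · rw [h1]
      omega
  have hsum := Finset.sum_le_sum fun (t : Fin 20) (_ : t ∈ Finset.univ) => hterm t
  rw [← Finset.sum_mul, hA, Finset.sum_add_distrib, ← Finset.mul_sum, ← Finset.sum_mul, hB] at hsum
  rw [hc]
  set S := ∑ t : Fin 20, DD n (57 - 3 * (t : ℕ)) (tw (n + 3) t)
  have h3 : 2 * ((n + 3) * (n + 2) / 2) ≤ (n + 3) * (n + 2) := Nat.mul_div_le _ _
  set T := (n + 3) * (n + 2) / 2
  have h4 : 4750480 * ((n + 3) * (n + 2)) + 2597680 * n < 5136830 * n ^ 2 := by nlinarith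
  have h5 : 32 * (T * 296905) ≤ 4750480 * ((n + 3) * (n + 2)) := by
    calc 32 * (T * 296905) = 4750480 * (2 * T) := by ring
      _ ≤ _ := Nat.mul_le_mul_left _ h3
  omega

end Pool.Agent.DP.H94
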