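import Pool.Agent.Helper50_DP.Stmts
import Pool.Agent.Helper1_PGH.Ht

/-!
# Squad DP, module HGT: the height inequality
-/

universe u

open MvPolynomial PGH PGL

namespace Pool.Agent.DP.H94

/-- HGT: the height inequality for a family of differential polynomials which does not vanish -/
theorem hgt (val : ValStmt.{u}) (nodc : NodcStmt.{u}) : HgtStmt.{u} := by
  classical
  intro k E _ _ _ _ _ _ N e m C L P y D cp α s₀ sc sb hP hL hN hD hcp hsc hα hy hsb hS hf
  obtain ⟨s₁, sn, h01, hn1, hsn, hs1, hnod⟩ := nodc k E N L y α s₀ sb hL hN hα hy hsb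
  set f := evD L D y P with hfdef
  -- the set of places
  set sf : Finset (Place k E) := (finite_support (L := k) f).toFinset with hsf
  have hsf' : ∀ v ∉ sf, v.ord f = 0 := by
    intro v hv
    by_contra h
    exact hv ((Set.Finite.mem_toFinset _).2 h)
  set s : Finset (Place k E) := s₁ ∪ sc ∪ sf with hs
  have hs1s : s₁ ⊆ s := fun v hv => Finset.mem_union_left _ (Finset.mem_union_left _ hv)
  have hscs : sc ⊆ s := fun v hv => Finset.mem_union_left _ (Finset.mem_union_right _ hv)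
  have hs0s : s₀ ⊆ s := h01.trans hs1s
  have hsns : sn ⊆ s := hn1.trans hs1s
  have h0 : ∑ v ∈ s, v.ord f = 0 := by
    apply sum_ord_eq_zero
    intro v hv
    apply hsf'
    intro h
    exact hv (Finset.mem_union_right _ h)
  -- local inequality
  have hloc : ∀ v ∈ s, (e : ℤ) * α v - m * cp v + (if v ∈ sn then 2 * (m : ℤ) else 0) ≤
      v.ord f := by
    intro v _
    obtain ⟨h1, h2⟩ := val k E N (2 * m) e m L P y D v (α v) (cp v) hP hL hN hD (hcp v)
      (fun j => hα.ge v j)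
    by_cases hv : v ∈ sn
    · rw [if_pos hv]
      obtain ⟨i, j, hij, hi, hj⟩ := hsn v hv
      have h3 := (v.ge_iff hf).1 (h2 i j hij (hy i) (hy j) hi hj)
      push_cast at h3
      exact h3
    · rw [if_neg hv, add_zero]
      exact (v.ge_iff hf).1 h1
  have hsum := Finset.sum_le_sum hloc
  rw [h0, Finset.sum_add_distrib, Finset.sum_sub_distrib, ← Finset.mul_sum, ← Finset.mul_sum] at hsum
  have hc1 : ∑ v ∈ s, (if v ∈ sn then 2 * (m : ℤ) else 0) = 2 * (m : ℤ) * sn.card := by
    rw [← Finset.sum_filter, Finset.filter_mem_eq_inter, Finset.inter_eq_right.2 hsns,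
      Finset.sum_const, nsmul_eq_mul]
    ring
  have hc2 : ∑ v ∈ s, α v = ∑ v ∈ s₀, α v := by
    symm
    apply Finset.sum_subset hs0s
    intro v _ hv
    exact hα.supp v hv
  have hc3 : ∑ v ∈ s, (cp v : ℤ) = ∑ v ∈ sc, (cp v : ℤ) := by
    symm
    apply Finset.sum_subset hscs
    intro v _ hv
    rw [hsc v hv, Nat.cast_zero]
  have h4 := hnod s hs1s
  have h5 := hS s hs0s hscs
  rw [hc1, hc2, hc3] at hsum
  rw [hc2] at h4 h5
  set h : ℤ := -∑ v ∈ s₀, α v with hh
  set Γ : ℤ := ∑ v ∈ sc, (cp v : ℤ) with hΓ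
  set S : ℤ := ∑ v ∈ s, ∑ i, max 0 (v.ord (lin (L i) y) - α v - 1) with hSdef
  have hα' : ∑ v ∈ s₀, α v = -h := by rw [hh]; ring
  rw [hα'] at hsum
  have hm : (0 : ℤ) ≤ m := Int.natCast_nonneg m
  have h6 := mul_le_mul_of_nonneg_left h4 (mul_nonneg (by norm_num : (0 : ℤ) ≤ 1000) hm)
  have h7 := mul_le_mul_of_nonneg_left h5 (mul_nonneg (by norm_num : (0 : ℤ) ≤ 3) hm)
  linarith

end Pool.Agent.DP.H94
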